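import Mathlib

/-!
# MP_93e0ce_lc: every finitely generated integral domain has a d-`Σ⁰₂` Scott sentence

The infinitary logic `L_{ω₁ω}` is set up over an arbitrary first-order language of Mathlib.

*Part 1* (known for general finitely generated structures, re-proved here because Mathlib has no
infinitary logic): if every tuple which satisfies all the universal formulas of a generating tuple
`a` is itself generating, then the structure has a d-`Σ⁰₂` Scott sentence.

*Part 2*: in a finitely generated integral domain this holds.  Let `b` be such a tuple and `e` the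
embedding with `e(a) = b`.  The image of a (finite) transcendence basis of `A` over the prime ring
is again a transcendence basis, so each `y ∈ A` is algebraic over `e(A)`; take a polynomial `p ≠ 0`
over `A` of least degree whose image under `e` kills `y`.  By the choice of `b`, `p` has a root `z`
in `A`, and cancelling the factor `X - z` shows `y = e(z)`.
-/

open FirstOrder FirstOrder.Language

set_option autoImplicit false

namespace Pool.Agent.Results.MP_93e0ce_lc.FGDomain

universe u

/-- Formulas of `L_{ω₁ω}` with free variables `x_0, …, x_{n-1}` (indexed by `Fin n`), in negation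
normal form: finitary quantifier-free formulas, binary conjunction, countable conjunctions and
disjunctions, and finite quantifier strings.  In `all m φ` and `ex m φ` the `m` quantified
variables are the first `m` of the `m + n` free variables of `φ`. -/
inductive Inf (L : FirstOrder.Language.{0, 0}) : ℕ → Type
  | qf {n : ℕ} (φ : L.Formula (Fin n)) (h : φ.IsQF) : Inf L n
  | and {n : ℕ} (φ ψ : Inf L n) : Inf L n
  | conj {n : ℕ} (φ : ℕ → Inf L n) : Inf L n
  | disj {n : ℕ} (φ : ℕ → Inf L n) : Inf L n
  | all {n : ℕ} (m : ℕ) (φ : Inf L (m + n)) : Inf L n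
  | ex {n : ℕ} (m : ℕ) (φ : Inf L (m + n)) : Inf L n

/-- Truth of a formula of `L_{ω₁ω}` in a structure. -/
def Inf.Realize {L : FirstOrder.Language.{0, 0}} {M : Type u} [L.Structure M] :
    ∀ {n : ℕ}, Inf L n → (Fin n → M) → Prop
  | _, .qf φ _, v => φ.Realize v
  | _, .and φ ψ, v => φ.Realize v ∧ ψ.Realize v
  | _, .conj φ, v => ∀ i, (φ i).Realize v
  | _, .disj φ, v => ∃ i, (φ i).Realize v
  | _, .all m φ, v => ∀ w : Fin m → M, φ.Realize (Fin.append w v)
  | _, .ex m φ, v => ∃ w : Fin m → M, φ.Realize (Fin.append w v)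

mutual

/-- `Σ⁰_k` formulas, for finite `k`: the finitary quantifier-free ones for `k = 0`; for `k > 0` the
countable disjunctions of formulas `∃ x̄ φ` with `φ` in `Π⁰_j` for some `j < k`. -/
inductive IsSigma {L : FirstOrder.Language.{0, 0}} : ℕ → ∀ {n : ℕ}, Inf L n → Prop
  | qf {n : ℕ} (φ : L.Formula (Fin n)) (h : φ.IsQF) : IsSigma 0 (.qf φ h)
  | disj {k n : ℕ} (m : ℕ → ℕ) (φ : ∀ i, Inf L (m i + n)) (j : ℕ → ℕ) (hj : ∀ i, j i < k)
      (hφ : ∀ i, IsPi (j i) (φ i)) : IsSigma k (.disj fun i => .ex (m i) (φ i))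

/-- `Π⁰_k` formulas, for finite `k`: the finitary quantifier-free ones for `k = 0`; for `k > 0` the
countable conjunctions of formulas `∀ x̄ φ` with `φ` in `Σ⁰_j` for some `j < k`. -/
inductive IsPi {L : FirstOrder.Language.{0, 0}} : ℕ → ∀ {n : ℕ}, Inf L n → Prop
  | qf {n : ℕ} (φ : L.Formula (Fin n)) (h : φ.IsQF) : IsPi 0 (.qf φ h)
  | conj {k n : ℕ} (m : ℕ → ℕ) (φ : ∀ i, Inf L (m i + n)) (j : ℕ → ℕ) (hj : ∀ i, j i < k)
      (hφ : ∀ i, IsSigma (j i) (φ i)) : IsPi k (.conj fun i => .all (m i) (φ i))

end

/-- A d-`Σ⁰_k` formula: the conjunction of a `Σ⁰_k` formula and a `Π⁰_k` formula. -/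
def IsDSigma {L : FirstOrder.Language.{0, 0}} (k : ℕ) {n : ℕ} (χ : Inf L n) : Prop :=
  ∃ φ ψ : Inf L n, IsSigma k φ ∧ IsPi k ψ ∧ χ = .and φ ψ

/-- The sentence `σ` of `L_{ω₁ω}` is a Scott sentence of the structure `A`: its countable models are
exactly the structures isomorphic to `A`. -/
def IsScottSentence {L : FirstOrder.Language.{0, 0}} (A : Type u) [L.Structure A] (σ : Inf L 0) : Prop :=
  ∀ (M : Type u) [L.Structure M] [Countable M],
    σ.Realize (M := M) Fin.elim0 ↔ Nonempty (M ≃[L] A)

/-! ### Part 1 -/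

section General

variable {L : FirstOrder.Language.{0, 0}}

theorem append_comp {m n : ℕ} {M N : Type u} (g : M → N) (w : Fin m → M) (v : Fin n → M) :
    Fin.append (g ∘ w) (g ∘ v) = g ∘ Fin.append w v := by
  ext i
  refine Fin.addCases (fun i => ?_) (fun i => ?_) i <;> simp

theorem Inf.realize_equiv {M N : Type u} [L.Structure M] [L.Structure N] (e : M ≃[L] N) :
    ∀ {n : ℕ} (φ : Inf L n) (v : Fin n → M), φ.Realize (e ∘ v) ↔ φ.Realize v
  | _, .qf φ _, v => StrongHomClass.realize_formula e φ
  | _, .and φ ψ, v => and_congr (Inf.realize_equiv e φ v) (Inf.realize_equiv e ψ v)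
  | _, .conj φ, v => forall_congr' fun i => Inf.realize_equiv e (φ i) v
  | _, .disj φ, v => exists_congr fun i => Inf.realize_equiv e (φ i) v
  | _, .all m φ, v => by
      simp only [Inf.Realize]
      constructor
      · intro h w
        rw [← Inf.realize_equiv e, ← append_comp]
        exact h _
      · intro h w
        obtain ⟨w', rfl⟩ : ∃ w', w = e ∘ w' := ⟨e.symm ∘ w, by ext; simp⟩
        rw [append_comp, Inf.realize_equiv e]
        exact h _
  | _, .ex m φ, v => by
      simp only [Inf.Realize]
      constructor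
      · rintro ⟨w, hw⟩
        obtain ⟨w', rfl⟩ : ∃ w', w = e ∘ w' := ⟨e.symm ∘ w, by ext; simp⟩
        rw [append_comp, Inf.realize_equiv e] at hw
        exact ⟨w', hw⟩
      · rintro ⟨w, hw⟩
        refine ⟨e ∘ w, ?_⟩
        rw [append_comp, Inf.realize_equiv e]
        exact hw

variable (L) in
/-- The quantifier-free formulas `ψ(w, x)` with `A ⊨ ∀ w ψ(w, a)`. -/
abbrev Univ (A : Type u) [L.Structure A] {n : ℕ} (a : Fin n → A) : Type :=
  {p : Σ m : ℕ, L.Formula (Fin (m + n)) //
    p.2.IsQF ∧ ∀ w : Fin p.1 → A, p.2.Realize (Fin.append w a)}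

theorem isQF_relabel {α β : Type} (g : α → β) {φ : L.Formula α} (h : φ.IsQF) :
    (φ.relabel g).IsQF := BoundedFormula.IsQF.relabel h _

theorem isQF_equal {α : Type} (t s : L.Term α) : (t.equal s).IsQF :=
  (BoundedFormula.IsAtomic.equal _ _).isQF

/-- Transfer of quantifier-free formulas from `a` to any tuple satisfying the universal formulas of
`a`. -/
theorem qf_transfer {A : Type u} [L.Structure A] {n : ℕ} {a : Fin n → A} {M : Type u}
    [L.Structure M] {x : Fin n → M}
    (hx : ∀ p : Univ L A a, ∀ w : Fin p.1.1 → M, p.1.2.Realize (Fin.append w x))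
    (ψ : L.Formula (Fin n)) (hψ : ψ.IsQF) : ψ.Realize a ↔ ψ.Realize x := by
  have key : ∀ (ψ : L.Formula (Fin n)), ψ.IsQF → ψ.Realize a → ψ.Realize x := by
    intro ψ hψ h
    let ψ' : L.Formula (Fin (0 + n)) := ψ.relabel (Fin.natAdd 0)
    have h1 : ∀ w : Fin 0 → A, ψ'.Realize (Fin.append w a) := by
      intro w
      rw [Formula.realize_relabel]
      have : (Fin.append w a ∘ Fin.natAdd 0) = a := by ext i; exact Fin.append_right _ _ i
      rw [this]; exact h
    have h2 := hx ⟨⟨0, ψ'⟩, isQF_relabel _ hψ, h1⟩ Fin.elim0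
    simp only [ψ'] at h2
    rw [Formula.realize_relabel] at h2
    have : (Fin.append Fin.elim0 x ∘ Fin.natAdd 0) = x := by ext i; exact Fin.append_right _ _ i
    rwa [this] at h2
  refine ⟨key ψ hψ, fun h => ?_⟩
  by_contra hn
  exact key ψ.not hψ.not hn h

theorem exists_equiv {A : Type u} [L.Structure A] {n : ℕ} {a : Fin n → A}
    (ha : ∀ y : A, ∃ t : L.Term (Fin n), t.realize a = y) {M : Type u}
    [L.Structure M] {x : Fin n → M}
    (hx : ∀ p : Univ L A a, ∀ w : Fin p.1.1 → M, p.1.2.Realize (Fin.append w x))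
    (hgen : ∀ y : M, ∃ t : L.Term (Fin n), t.realize x = y) : Nonempty (A ≃[L] M) := by
  have heq : ∀ t s : L.Term (Fin n), t.realize a = s.realize a ↔ t.realize x = s.realize x := by
    intro t s
    have := qf_transfer hx (t.equal s) (isQF_equal t s)
    rwa [Formula.realize_equal, Formula.realize_equal] at this
  choose c hc using ha
  have hf : ∀ t : L.Term (Fin n), (c (t.realize a)).realize x = t.realize x := by
    intro t
    rw [← heq, hc]
  have hbij : Function.Bijective (fun y : A => (c y).realize x) := by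
    constructor
    · intro y z h
      have h1 := (heq (c y) (c z)).2 h
      rwa [hc, hc] at h1
    · intro y
      obtain ⟨t, rfl⟩ := hgen y
      exact ⟨t.realize a, hf t⟩
  refine ⟨{ toEquiv := Equiv.ofBijective _ hbij, map_fun' := ?_, map_rel' := ?_ }⟩
  · intro k F y
    show (c (Structure.funMap F y)).realize x = Structure.funMap F (fun i => (c (y i)).realize x)
    have h1 : (Term.func F fun i => c (y i)).realize a = Structure.funMap F y := by
      simp [Term.realize, hc]
    rw [← h1, hf]
    rfl
  · intro k r y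
    show Structure.RelMap r (fun i => (c (y i)).realize x) ↔ _
    have h1 := qf_transfer hx (r.formula fun i => c (y i))
      (BoundedFormula.IsAtomic.rel _ _).isQF
    rw [Formula.realize_rel, Formula.realize_rel] at h1
    rw [← h1]
    simp [hc]

theorem exists_dSigma [Countable L.Symbols] (A : Type u) [L.Structure A] {n : ℕ} (a : Fin n → A)
    (ha : ∀ y : A, ∃ t : L.Term (Fin n), t.realize a = y)
    (hself : ∀ b : Fin n → A,
      (∀ p : Univ L A a, ∀ w : Fin p.1.1 → A, p.1.2.Realize (Fin.append w b)) →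
        ∀ y : A, ∃ t : L.Term (Fin n), t.realize b = y) :
    ∃ σ : Inf L 0, IsDSigma 2 σ ∧ IsScottSentence A σ := by
  classical
  have : Countable (Σ l, L.Functions l) := inferInstance
  have : Nonempty (Univ L A a) := ⟨⟨⟨0, ⊤⟩, BoundedFormula.IsQF.top, fun w => by simp⟩⟩
  obtain ⟨e, he⟩ := exists_surjective_nat (Univ L A a)
  obtain ⟨d, hd⟩ := exists_surjective_nat (Univ L A a ⊕ L.Term (Fin n))
  -- the conjunction of all universal formulas true of `a`
  let φ₁ : Inf L (n + 0) := .conj fun i => .all (e i).1.1 (.qf (e i).1.2 (e i).2.1)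
  have hφ₁ : ∀ {M : Type u} [L.Structure M] (x : Fin n → M), φ₁.Realize x ↔
      ∀ p : Univ L A a, ∀ w : Fin p.1.1 → M, p.1.2.Realize (Fin.append w x) := by
    intro M _ x
    constructor
    · intro h p w
      obtain ⟨i, rfl⟩ := he p
      exact h i w
    · intro h i w
      exact h (e i) w
  have hc₁ : IsPi 1 φ₁ := IsPi.conj (fun i => (e i).1.1) _ (fun _ => 0) (fun _ => Nat.zero_lt_one)
    (fun i => IsSigma.qf _ _)
  let σ₁ : Inf L 0 := .disj fun _ => .ex n φ₁
  have hσ₁ : IsSigma 2 σ₁ := IsSigma.disj (fun _ => n) (fun _ => φ₁) (fun _ => 1)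
    (fun _ => Nat.one_lt_two) (fun _ => hc₁)
  -- the disjunction
  let ρ : ∀ q : Univ L A a ⊕ L.Term (Fin n), Σ m : ℕ, {ψ : L.Formula (Fin (m + (1 + n))) // ψ.IsQF} :=
    fun q => match q with
    | .inl p => ⟨p.1.1, (p.1.2.relabel (Fin.addCases (fun j => Fin.castAdd (1 + n) j)
        (fun k => Fin.natAdd p.1.1 (Fin.natAdd 1 k)))).not, (isQF_relabel _ p.2.1).not⟩
    | .inr t => ⟨0, ((Term.var (Fin.natAdd 0 (Fin.castAdd n 0))).equal
        (t.relabel fun k => Fin.natAdd 0 (Fin.natAdd 1 k))), isQF_equal _ _⟩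
  let θ : Inf L (1 + n) := .disj fun i => .ex (ρ (d i)).1 (.qf (ρ (d i)).2.1 (ρ (d i)).2.2)
  have hθ : IsSigma 1 θ := IsSigma.disj (fun i => (ρ (d i)).1) _ (fun _ => 0)
    (fun _ => Nat.zero_lt_one) (fun i => IsPi.qf _ _)
  let θ' : Inf L (1 + n + 0) := θ
  let σ₂ : Inf L 0 := .conj fun _ => .all (1 + n) θ'
  have hσ₂ : IsPi 2 σ₂ := IsPi.conj (fun _ => 1 + n) (fun _ => θ') (fun _ => 1)
    (fun _ => Nat.one_lt_two) (fun _ => hθ)
  have hθr : ∀ {M : Type u} [L.Structure M] (y : M) (x : Fin n → M),
      θ.Realize (Fin.append (fun _ : Fin 1 => y) x) ↔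
      (∀ p : Univ L A a, ∀ w : Fin p.1.1 → M, p.1.2.Realize (Fin.append w x)) →
        ∃ t : L.Term (Fin n), t.realize x = y := by
    intro M _ y x
    have hl : ∀ p : Univ L A a, (∃ w : Fin (ρ (.inl p)).1 → M, (ρ (.inl p)).2.1.Realize
        (Fin.append w (Fin.append (fun _ : Fin 1 => y) x))) ↔
        ¬ ∀ w : Fin p.1.1 → M, p.1.2.Realize (Fin.append w x) := by
      intro p
      push Not
      refine exists_congr fun w => ?_
      refine (Formula.realize_not (M := M)
        (φ := p.1.2.relabel (Fin.addCases (fun j => Fin.castAdd (1 + n) j)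
          (fun k => Fin.natAdd p.1.1 (Fin.natAdd 1 k))))
        (v := Fin.append w (Fin.append (fun _ : Fin 1 => y) x))).trans ?_
      rw [Formula.realize_relabel]
      have : (Fin.append w (Fin.append (fun _ : Fin 1 => y) x) ∘
          (Fin.addCases (fun j => Fin.castAdd (1 + n) j)
            (fun k => Fin.natAdd p.1.1 (Fin.natAdd 1 k)))) = Fin.append w x := by
        ext i
        refine Fin.addCases (fun i => ?_) (fun i => ?_) i
        · simp
        · simp only [Function.comp_apply, Fin.addCases_right, Fin.append_right]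
          exact (Fin.append_right w _ _).trans (Fin.append_right _ x i)
      rw [this]
    have hr : ∀ t : L.Term (Fin n), (∃ w : Fin (ρ (.inr t)).1 → M, (ρ (.inr t)).2.1.Realize
        (Fin.append w (Fin.append (fun _ : Fin 1 => y) x))) ↔ t.realize x = y := by
      intro t
      have h0 : ∀ w : Fin 0 → M, (((Term.var (Fin.natAdd 0 (Fin.castAdd n 0))).equal
        (t.relabel fun k => Fin.natAdd 0 (Fin.natAdd 1 k)) : L.Formula (Fin (0 + (1 + n))))).Realize
        (Fin.append w (Fin.append (fun _ : Fin 1 => y) x)) ↔ t.realize x = y := by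
        intro w
        rw [Formula.realize_equal, Term.realize_relabel, Term.realize_var]
        have : (Fin.append w (Fin.append (fun _ : Fin 1 => y) x) ∘
          (fun k => Fin.natAdd 0 (Fin.natAdd 1 k))) = x := by
          ext i
          exact (Fin.append_right w _ _).trans (Fin.append_right _ x i)
        rw [this]
        have h2 : Fin.append w (Fin.append (fun _ : Fin 1 => y) x) (Fin.natAdd 0 (Fin.castAdd n 0))
            = y := (Fin.append_right w _ _).trans (Fin.append_left _ x 0)
        rw [h2]
        exact eq_comm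
      exact ⟨fun ⟨w, hw⟩ => (h0 w).1 hw, fun h => ⟨Fin.elim0, (h0 _).2 h⟩⟩
    constructor
    · rintro ⟨i, hi⟩ hx
      rcases hdi : d i with p | t
      · exfalso
        have h1 : ∃ w : Fin (ρ (d i)).1 → M, (ρ (d i)).2.1.Realize
          (Fin.append w (Fin.append (fun _ : Fin 1 => y) x)) := hi
        rw [hdi] at h1
        exact (hl p).1 h1 (hx p)
      · have h1 : ∃ w : Fin (ρ (d i)).1 → M, (ρ (d i)).2.1.Realize
          (Fin.append w (Fin.append (fun _ : Fin 1 => y) x)) := hi
        rw [hdi] at h1
        exact ⟨t, (hr t).1 h1⟩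
    · intro h
      by_cases hx : ∀ p : Univ L A a, ∀ w : Fin p.1.1 → M, p.1.2.Realize (Fin.append w x)
      · obtain ⟨t, ht⟩ := h hx
        obtain ⟨i, hi⟩ := hd (.inr t)
        refine ⟨i, ?_⟩
        show ∃ w : Fin (ρ (d i)).1 → M, (ρ (d i)).2.1.Realize
          (Fin.append w (Fin.append (fun _ : Fin 1 => y) x))
        rw [hi]
        exact (hr t).2 ht
      · rw [not_forall] at hx
        obtain ⟨p, hp⟩ := hx
        obtain ⟨i, hi⟩ := hd (.inl p)
        refine ⟨i, ?_⟩
        show ∃ w : Fin (ρ (d i)).1 → M, (ρ (d i)).2.1.Realize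
          (Fin.append w (Fin.append (fun _ : Fin 1 => y) x))
        rw [hi]
        exact (hl p).2 hp
  refine ⟨.and σ₁ σ₂, ⟨σ₁, σ₂, hσ₁, hσ₂, rfl⟩, ?_⟩
  have happ : ∀ {M : Type u} {k : ℕ} (w : Fin k → M), (Fin.append w Fin.elim0 : Fin (k + 0) → M) = w := by
    intro M k w
    ext i
    exact Fin.append_left w Fin.elim0 i
  have hA : (Inf.and σ₁ σ₂).Realize (M := A) Fin.elim0 := by
    refine ⟨⟨0, a, ?_⟩, fun _ v => ?_⟩
    · rw [happ]
      exact (hφ₁ a).2 fun p => p.2.2
    · rw [happ]
      have : v = Fin.append (fun _ : Fin 1 => v (Fin.castAdd n 0)) (fun k => v (Fin.natAdd 1 k)) := by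
        ext i
        refine Fin.addCases (fun i => ?_) (fun i => ?_) i
        · simp [Subsingleton.elim i 0]
        · simp
      rw [this]
      exact (hθr _ _).2 fun hx => hself _ hx _
  intro M _ _
  constructor
  · rintro ⟨⟨_, x, hx⟩, h2⟩
    rw [happ] at hx
    have hx' := (hφ₁ x).1 hx
    have hgen : ∀ y : M, ∃ t : L.Term (Fin n), t.realize x = y := by
      intro y
      have h3 := h2 0 (Fin.append (fun _ : Fin 1 => y) x)
      rw [happ] at h3
      exact (hθr y x).1 h3 hx'
    obtain ⟨f⟩ := exists_equiv ha hx' hgen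
    exact ⟨f.symm⟩
  · rintro ⟨f⟩
    have h := Inf.realize_equiv f.symm (Inf.and σ₁ σ₂) Fin.elim0
    have h0 : (f.symm ∘ Fin.elim0 : Fin 0 → M) = Fin.elim0 := by ext i; exact i.elim0
    rw [h0] at h
    exact h.2 hA

end General

/-! ### Part 2 -/

section Rings

open Polynomial

theorem surjective_of_root {A : Type u} [CommRing A] [IsDomain A] (hfg : Algebra.FiniteType ℤ A)
    (e : A →+* A) (he : Function.Injective e)
    (hroot : ∀ p : A[X], (∃ y, (p.map e).eval y = 0) → ∃ z, p.eval z = 0) :
    Function.Surjective e := by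
  classical
  -- first step: an algebraic element of `A` over `e(A)` lies in `e(A)`
  have step : ∀ (N : ℕ) (p : A[X]), p.natDegree ≤ N → p ≠ 0 → ∀ y : A, (p.map e).eval y = 0 →
      ∃ z, e z = y := by
    intro N
    induction N with
    | zero =>
      intro p hp hp0 y hy
      exfalso
      obtain ⟨c, rfl⟩ : ∃ c, p = C c := ⟨p.coeff 0, eq_C_of_natDegree_le_zero hp⟩
      simp only [map_C, eval_C] at hy
      apply hp0
      rw [(map_eq_zero_iff e he).1 hy, C_0]
    | succ N ih =>
      intro p hp hp0 y hy
      obtain ⟨z, hz⟩ := hroot p ⟨y, hy⟩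
      obtain ⟨q, hq⟩ := dvd_iff_isRoot.2 hz
      have hq0 : q ≠ 0 := by
        rintro rfl
        exact hp0 (by rw [hq, mul_zero])
      rw [hq, Polynomial.map_mul, eval_mul, Polynomial.map_sub, map_X, map_C, eval_sub, eval_X,
        eval_C] at hy
      rcases mul_eq_zero.1 hy with h | h
      · exact ⟨z, (sub_eq_zero.1 h).symm⟩
      · refine ih q ?_ hq0 y h
        have := congrArg natDegree hq
        rw [natDegree_mul (X_sub_C_ne_zero z) hq0, natDegree_X_sub_C] at this
        omega
  -- second step: every element is algebraic over `e(A)`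
  let p := ringChar A
  let _ : Algebra (ZMod p) A := ZMod.algebra A p
  have : IsDomain (ZMod p) := by
    rcases CharP.char_is_prime_or_zero A p with hp | hp
    · have : Fact p.Prime := ⟨hp⟩
      infer_instance
    · rw [hp]
      exact inferInstanceAs (IsDomain ℤ)
  have : FaithfulSMul (ZMod p) A := by
    rw [faithfulSMul_iff_algebraMap_injective]
    exact ZMod.castHom_injective A
  have : Algebra.FiniteType (ZMod p) A := by
    have := hfg
    exact Algebra.FiniteType.of_restrictScalars_finiteType ℤ (ZMod p) A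
  have hcomm : e.comp (algebraMap (ZMod p) A) = algebraMap (ZMod p) A := Subsingleton.elim _ _
  let e' : A →ₐ[ZMod p] A := { e with commutes' := fun r => congrArg (fun f => f r) hcomm }
  obtain ⟨s, hs⟩ := exists_isTranscendenceBasis (ZMod p) A
  have hs' : AlgebraicIndependent (ZMod p) (e' ∘ (Subtype.val : s → A)) := hs.1.map' he
  have htb : IsTranscendenceBasis (ZMod p) (e' ∘ (Subtype.val : s → A)) := by
    apply hs'.isTranscendenceBasis_of_trdeg_le (trdeg_lt_aleph0_of_finiteType)
    rw [hs.cardinalMk_eq_trdeg]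
  intro y
  have halg := htb.isAlgebraic
  obtain ⟨q, hq0, hq⟩ := halg.isAlgebraic y
  -- lift the coefficients of `q` along `e`
  have hle : ∀ c : Algebra.adjoin (ZMod p) (Set.range (e' ∘ (Subtype.val : s → A))),
      ∃ d : A, e d = c := by
    have : Algebra.adjoin (ZMod p) (Set.range (e' ∘ (Subtype.val : s → A))) ≤ e'.range := by
      rw [Algebra.adjoin_le_iff]
      rintro _ ⟨i, rfl⟩
      exact ⟨i.1, rfl⟩
    intro c
    exact this c.2
  choose d hd using hle
  let r : A[X] := ∑ i ∈ q.support, C (d (q.coeff i)) * X ^ i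
  have hr : r.map e = q.map (algebraMap _ A) := by
    simp only [r, Polynomial.map_sum, Polynomial.map_mul, map_C, Polynomial.map_pow, map_X]
    conv_rhs => rw [q.as_sum_support_C_mul_X_pow]
    simp only [Polynomial.map_sum, Polynomial.map_mul, map_C, Polynomial.map_pow, map_X]
    refine Finset.sum_congr rfl fun i _ => ?_
    rw [hd]
    rfl
  have hr0 : r ≠ 0 := by
    intro h0
    rw [h0, Polynomial.map_zero] at hr
    apply hq0
    have hinj : Function.Injective (algebraMap
        (Algebra.adjoin (ZMod p) (Set.range (e' ∘ (Subtype.val : s → A)))) A) :=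
      Subtype.val_injective
    exact (Polynomial.map_eq_zero_iff hinj).1 hr.symm
  refine step r.natDegree r le_rfl hr0 y ?_
  rw [hr, ← hq, aeval_def, eval₂_eq_eval_map]

theorem lift_append {A : Type u} [CommRing A] {m n : ℕ} (w : Fin m → A) (a : Fin n → A)
    (P : FreeCommRing (Fin n)) :
    FreeCommRing.lift (Fin.append w a) (FreeCommRing.map (Fin.natAdd m) P)
      = FreeCommRing.lift a P := by
  have : (FreeCommRing.lift (Fin.append w a)).comp (FreeCommRing.map (Fin.natAdd m))
      = FreeCommRing.lift a := by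
    apply FreeCommRing.hom_ext
    intro i
    simp
  exact congrArg (fun f => f P) this

/-- The universal formulas of a generating tuple of a finitely generated domain are satisfied only
by generating tuples. -/
theorem generates {A : Type u} [CommRing A] [IsDomain A] [FirstOrder.Ring.CompatibleRing A]
    {n : ℕ} (a : Fin n → A) (ha : Subring.closure (Set.range a) = ⊤) (b : Fin n → A)
    (hb : ∀ p : Univ Language.ring A a, ∀ w : Fin p.1.1 → A, p.1.2.Realize (Fin.append w b)) :
    ∀ y : A, ∃ t : Language.ring.Term (Fin n), t.realize b = y := by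
  classical
  have hsurj : Function.Surjective (FreeCommRing.lift a) := by
    rw [← RingHom.range_eq_top, eq_top_iff, ← ha, Subring.closure_le]
    rintro _ ⟨i, rfl⟩
    exact ⟨FreeCommRing.of i, by simp⟩
  -- transfer of equations
  have heq : ∀ P : FreeCommRing (Fin n), FreeCommRing.lift a P = 0 ↔ FreeCommRing.lift b P = 0 := by
    intro P
    have h := qf_transfer hb ((FirstOrder.Ring.termOfFreeCommRing P).equal
      (FirstOrder.Ring.termOfFreeCommRing 0)) (isQF_equal _ _)
    simpa [Formula.realize_equal] using h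
  -- transfer of universal inequations
  have hne : ∀ P : FreeCommRing (Fin (1 + n)), (∀ w, FreeCommRing.lift (Fin.append w a) P ≠ 0) →
      ∀ w, FreeCommRing.lift (Fin.append w b) P ≠ 0 := by
    intro P hP w
    let ψ : Language.ring.Formula (Fin (1 + n)) := ((FirstOrder.Ring.termOfFreeCommRing P).equal
      (FirstOrder.Ring.termOfFreeCommRing 0)).not
    have h := hb ⟨⟨1, ψ⟩, (isQF_equal _ _).not, fun w => by
      simp only [ψ]
      rw [Formula.realize_not, Formula.realize_equal]
      simpa using hP w⟩ w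
    simp only [ψ] at h
    rw [Formula.realize_not, Formula.realize_equal] at h
    simpa using h
  have hker : RingHom.ker (FreeCommRing.lift a) ≤ RingHom.ker (FreeCommRing.lift b) := by
    intro P hP
    exact (heq P).1 hP
  let e : A →+* A := (FreeCommRing.lift a).liftOfSurjective hsurj ⟨FreeCommRing.lift b, hker⟩
  have he : ∀ P, e (FreeCommRing.lift a P) = FreeCommRing.lift b P := fun P =>
    RingHom.liftOfRightInverse_comp_apply _ _ _ ⟨FreeCommRing.lift b, hker⟩ P
  have hinj : Function.Injective e := by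
    rw [injective_iff_map_eq_zero]
    intro y hy
    obtain ⟨P, rfl⟩ := hsurj y
    rw [he] at hy
    exact (heq P).2 hy
  have hfg : Algebra.FiniteType ℤ A := by
    refine ⟨⟨Finset.univ.image a, ?_⟩⟩
    rw [eq_top_iff]
    intro y _
    have hy : y ∈ Subring.closure (Set.range a) := by rw [ha]; trivial
    have : Subring.closure (Set.range a) ≤
        (Algebra.adjoin ℤ ((Finset.univ.image a : Finset A) : Set A)).toSubring := by
      rw [Subring.closure_le]
      rintro _ ⟨i, rfl⟩
      exact Algebra.subset_adjoin (by simp)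
    exact this hy
  have hsur : Function.Surjective e := by
    refine surjective_of_root hfg e hinj ?_
    intro p ⟨y, hy⟩
    by_contra hno
    push Not at hno
    choose c hc using fun i => hsurj (p.coeff i)
    let P : FreeCommRing (Fin (1 + n)) := ∑ i ∈ p.support,
      FreeCommRing.map (Fin.natAdd 1) (c i) * FreeCommRing.of (Fin.castAdd n 0) ^ i
    have h1 : ∀ w : Fin 1 → A, FreeCommRing.lift (Fin.append w a) P = p.eval (w 0) := by
      intro w
      simp only [P, map_sum, map_mul, map_pow, lift_append, hc, FreeCommRing.lift_of,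
        Fin.append_left]
      rw [Polynomial.eval_eq_sum, Polynomial.sum]
    have h2 : ∀ w : Fin 1 → A, FreeCommRing.lift (Fin.append w b) P = (p.map e).eval (w 0) := by
      intro w
      simp only [P, map_sum, map_mul, map_pow, lift_append, FreeCommRing.lift_of,
        Fin.append_left]
      rw [Polynomial.eval_map, Polynomial.eval₂_eq_sum, Polynomial.sum]
      refine Finset.sum_congr rfl fun i _ => ?_
      rw [← he, hc]
    have h3 := hne P (fun w => by rw [h1]; exact hno _) (fun _ => y)
    rw [h2] at h3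
    exact h3 hy
  intro y
  obtain ⟨z, rfl⟩ := hsur y
  obtain ⟨P, rfl⟩ := hsurj z
  refine ⟨FirstOrder.Ring.termOfFreeCommRing P, ?_⟩
  rw [FirstOrder.Ring.realize_termOfFreeCommRing, he]

end Rings

/-- Every finitely generated integral domain has a d-`Σ⁰₂` Scott sentence. -/
theorem result (A : Type u) [CommRing A] [IsDomain A] [FirstOrder.Ring.CompatibleRing A]
    (hfg : ∃ s : Finset A, Subring.closure (s : Set A) = ⊤) :
    ∃ σ : Inf Language.ring 0, IsDSigma 2 σ ∧ IsScottSentence A σ := by
  classical
  obtain ⟨s, hs⟩ := hfg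
  have ha : Subring.closure (Set.range (fun i : Fin s.card => (s.equivFin.symm i : A))) = ⊤ := by
    rw [← hs]
    congr 1
    ext y
    constructor
    · rintro ⟨i, rfl⟩
      exact (s.equivFin.symm i).2
    · intro hy
      exact ⟨s.equivFin ⟨y, hy⟩, by simp⟩
  refine exists_dSigma A _ ?_ (generates _ ha)
  intro y
  refine generates _ ha _ ?_ y
  intro p
  exact p.2.2

end Pool.Agent.Results.MP_93e0ce_lc.FGDomain
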